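import Mathlib
import Pool.Agent.Lib.MP_fce458_co.Core

open Finset

namespace Pool.Agent.Results.MP_fce458_co.SixPower

/-- The blowup `G[n]`: every vertex `v` of `G` is replaced by the independent set
`{v} × Fin n`, and every edge by a complete bipartite graph. -/
def blowup {V : Type} (G : SimpleGraph V) (n : ℕ) : SimpleGraph (V × Fin n) where
  Adj p q := G.Adj p.1 q.1
  symm := ⟨fun _ _ h => h.symm⟩
  loopless := ⟨fun _ h => G.irrefl h⟩

/-- A 2-colouring of the edges of `K_6[n]`. -/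
abbrev Colouring (n : ℕ) : Type := (blowup (⊤ : SimpleGraph (Fin 6)) n).edgeSet → Bool

/-- Every edge of `K_6[n]` between `{a} × A` and `{b} × B` has colour `k`. -/
def MonoBetween {n : ℕ} (χ : Colouring n) (k : Bool) (a b : Fin 6) (A B : Finset (Fin n)) :
    Prop :=
  ∀ x ∈ A, ∀ y ∈ B, ∀ h : s((a, x), (b, y)) ∈ (blowup (⊤ : SimpleGraph (Fin 6)) n).edgeSet,
    χ ⟨s((a, x), (b, y)), h⟩ = k

/-- The colouring has a canonical monochromatic copy of `K_3[t]`. -/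
def HasCanonicalMono {n : ℕ} (t : ℕ) (χ : Colouring n) : Prop :=
  ∃ (a b c : Fin 6) (A B C : Finset (Fin n)) (k : Bool),
    a ≠ b ∧ a ≠ c ∧ b ≠ c ∧ A.card = t ∧ B.card = t ∧ C.card = t ∧
    MonoBetween χ k a b A B ∧ MonoBetween χ k a c A C ∧ MonoBetween χ k b c B C

/-- `n(t)`: the least `n ≥ 1` such that every 2-colouring of the edges of `K_6[n]` contains a
canonical monochromatic copy of `K_3[t]`. -/
noncomputable def blowupRamsey (t : ℕ) : ℕ :=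
  sInf {n : ℕ | 1 ≤ n ∧ ∀ χ : Colouring n, HasCanonicalMono t χ}

/-- The colour of an edge, extended by `false` to all pairs. -/
noncomputable def ext {n : ℕ} (χ : Colouring n) (i j : Fin 6) (x y : Fin n) : Bool := by
  classical
  exact if h : s((i, x), (j, y)) ∈ (blowup (⊤ : SimpleGraph (Fin 6)) n).edgeSet then
    χ ⟨s((i, x), (j, y)), h⟩ else false

lemma mono_of_ext {n : ℕ} (χ : Colouring n) (k : Bool) (a b : Fin 6) (A B : Finset (Fin n))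
    (h : ∀ x ∈ A, ∀ y ∈ B, ext χ a b x y = k) : MonoBetween χ k a b A B := by
  intro x hx y hy he
  have := h x hx y hy
  unfold ext at this
  rw [dif_pos he] at this
  exact this

open Filter Topology in
/-- Growth facts. -/
lemma growth (ε δ : ℝ) (hε : 0 < ε) (hε1 : ε ≤ 1 / 20) (hδ : 0 < δ) :
    ∀ᶠ t : ℕ in atTop, 2 ≤ t ∧ 4 * (t : ℝ) ^ 2 ≤ δ * (1 + δ) ^ t ∧
      32 * (t : ℝ) * (1 + δ) / δ + 1 ≤ (6 + ε) ^ t / 432 ∧
      (6 + ε) ^ t + 1 ≤ (61 / 10 : ℝ) ^ t ∧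
      (6 + ε) ^ t + 1 ≤ (6 + 2 * ε) ^ t := by
  have e0 : ∀ᶠ t : ℕ in atTop, 2 ≤ t := eventually_ge_atTop 2
  have h1 : Tendsto (fun t : ℕ => (t : ℝ) ^ 2 / (1 + δ) ^ t) atTop (𝓝 0) :=
    tendsto_pow_const_div_const_pow_of_one_lt 2 (by linarith)
  have e1 : ∀ᶠ t : ℕ in atTop, (t : ℝ) ^ 2 / (1 + δ) ^ t ≤ δ / 4 :=
    h1.eventually (ge_mem_nhds (by positivity))
  have h2 : Tendsto (fun t : ℕ => (t : ℝ) ^ 1 / (6 + ε) ^ t) atTop (𝓝 0) :=
    tendsto_pow_const_div_const_pow_of_one_lt 1 (by linarith)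
  have e2 : ∀ᶠ t : ℕ in atTop, (t : ℝ) ^ 1 / (6 + ε) ^ t ≤ 1 / (432 * (32 * (1 + δ) / δ + 1)) :=
    h2.eventually (ge_mem_nhds (by positivity))
  have h3 : Tendsto (fun t : ℕ => ((6 + ε) / (6 + 2 * ε)) ^ t) atTop (𝓝 0) :=
    tendsto_pow_atTop_nhds_zero_of_lt_one (by positivity)
      (by rw [div_lt_one (by positivity)]; linarith)
  have e3 : ∀ᶠ t : ℕ in atTop, ((6 + ε) / (6 + 2 * ε)) ^ t ≤ 1 / 2 :=
    h3.eventually (ge_mem_nhds (by norm_num))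
  have h4 : Tendsto (fun t : ℕ => ((6 + ε) / (61 / 10)) ^ t) atTop (𝓝 0) :=
    tendsto_pow_atTop_nhds_zero_of_lt_one (by positivity)
      (by rw [div_lt_one (by positivity)]; linarith)
  have e4 : ∀ᶠ t : ℕ in atTop, ((6 + ε) / (61 / 10)) ^ t ≤ 1 / 2 :=
    h4.eventually (ge_mem_nhds (by norm_num))
  filter_upwards [e0, e1, e2, e3, e4] with t t0 t1 t2 t3 t4
  have hpos : (0 : ℝ) < (6 + ε) ^ t := by positivity
  have hone : (1 : ℝ) ≤ (6 + ε) ^ t := one_le_pow₀ (by linarith)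
  have htr : (2 : ℝ) ≤ t := by exact_mod_cast t0
  refine ⟨t0, ?_, ?_, ?_, ?_⟩
  · rw [div_le_iff₀ (by positivity)] at t1
    linarith
  · rw [pow_one, div_le_iff₀ hpos] at t2
    rw [le_div_iff₀ (by norm_num)]
    have hc : (0 : ℝ) < 432 * (32 * (1 + δ) / δ + 1) := by positivity
    have h5 : (t : ℝ) * (432 * (32 * (1 + δ) / δ + 1)) ≤ (6 + ε) ^ t := by
      rw [one_div, inv_mul_eq_div, le_div_iff₀ hc] at t2
      exact t2
    have h6 : (32 * (t : ℝ) * (1 + δ) / δ + 1) * 432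
        ≤ (t : ℝ) * (432 * (32 * (1 + δ) / δ + 1)) := by
      have : (32 * (t : ℝ) * (1 + δ) / δ) = t * (32 * (1 + δ) / δ) := by ring
      rw [this]
      nlinarith
    linarith
  · rw [div_pow, div_le_iff₀ (by positivity)] at t4
    linarith
  · rw [div_pow, div_le_iff₀ (by positivity)] at t3
    linarith

lemma arrow_of {ε δ : ℝ} (hε0 : 0 < ε) (hε1 : ε ≤ 1 / 20) (hδ0 : 0 < δ) (hδ : 1000 * δ ≤ ε)
    {t N : ℕ} (ht0 : 2 ≤ t) (ht : 4 * (t : ℝ) ^ 2 ≤ δ * (1 + δ) ^ t)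
    (hn1 : (6 + ε) ^ t ≤ (N : ℝ)) (hn2 : (N : ℝ) ≤ (61 / 10) ^ t)
    (hbig : 32 * (t : ℝ) * (1 + δ) / δ + 1 ≤ N / 432) (χ : Colouring N) :
    HasCanonicalMono t χ := by
  by_contra hcon
  refine Pool.Agent.Lib.MP_fce458_co.core (ext χ) ?_ ε δ hε0 hε1 hδ0 hδ ht0 ht hn1 hn2 hbig
  intro k i j l hij hil hjl A B C hA hB hC h
  exact hcon ⟨i, j, l, A, B, C, k, hij, hil, hjl, hA, hB, hC, mono_of_ext χ k i j A B h.1,
    mono_of_ext χ k i l A C h.2.1, mono_of_ext χ k j l B C h.2.2⟩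

/-- **Main result.** For every `ε > 0` and all sufficiently large `t`, the number `n(t)` exists
and is at most `(6 + ε) ^ t`. -/
theorem result (ε : ℝ) (hε : 0 < ε) :
    ∃ t₀ : ℕ, ∀ t : ℕ, t₀ ≤ t →
      (1 ≤ blowupRamsey t ∧ ∀ χ : Colouring (blowupRamsey t), HasCanonicalMono t χ) ∧
      (blowupRamsey t : ℝ) ≤ (6 + ε) ^ t := by
  set η : ℝ := min (ε / 2) (1 / 20) with hη
  have hη0 : 0 < η := lt_min (by linarith) (by norm_num)
  have hη1 : η ≤ 1 / 20 := min_le_right _ _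
  have hη2 : 2 * η ≤ ε := by
    have := min_le_left (ε / 2) (1 / 20 : ℝ)
    linarith
  obtain ⟨t₀, ht₀⟩ := Filter.eventually_atTop.1 (growth η (η / 1000) hη0 hη1 (by positivity))
  refine ⟨t₀, fun t ht => ?_⟩
  obtain ⟨g0, g1, g2, g3, g4⟩ := ht₀ t ht
  set N : ℕ := ⌈(6 + η) ^ t⌉₊ with hN
  have hN1 : (6 + η) ^ t ≤ (N : ℝ) := Nat.le_ceil _
  have hN2 : (N : ℝ) ≤ (6 + η) ^ t + 1 := (Nat.ceil_lt_add_one (by positivity)).le
  have hmem : N ∈ {n : ℕ | 1 ≤ n ∧ ∀ χ : Colouring n, HasCanonicalMono t χ} := by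
    refine ⟨?_, fun χ => ?_⟩
    · have : (1 : ℝ) ≤ (6 + η) ^ t := one_le_pow₀ (by linarith)
      have h2 : (1 : ℝ) ≤ (N : ℝ) := this.trans hN1
      exact_mod_cast h2
    · refine arrow_of hη0 hη1 (δ := η / 1000) (by positivity) (by linarith) g0 g1 hN1
        (hN2.trans g3) ?_ χ
      refine g2.trans ?_
      exact div_le_div_of_nonneg_right hN1 (by norm_num)
  refine ⟨Nat.sInf_mem ⟨N, hmem⟩, ?_⟩
  have h1 : blowupRamsey t ≤ N := Nat.sInf_le hmem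
  have h2 : (blowupRamsey t : ℝ) ≤ N := by exact_mod_cast h1
  calc (blowupRamsey t : ℝ) ≤ (6 + η) ^ t + 1 := h2.trans hN2
    _ ≤ (6 + 2 * η) ^ t := g4
    _ ≤ (6 + ε) ^ t := pow_le_pow_left₀ (by positivity) (by linarith) t

end Pool.Agent.Results.MP_fce458_co.SixPower
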